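import Pool.Agent.Lib.MP_42948a_nt.EG.Kr
import Pool.Agent.Lib.MP_42948a_nt.TF.E2
import Pool.Agent.Lib.MP_42948a_nt.TF.M1

/-!
# Coverage of the quotient by primes and products of two primes
-/

set_option linter.unusedSectionVars false

namespace Pool.Agent.Lib.MP_42948a_nt.EG

open Finset Pool.Agent.Lib.MP_42948a_nt.OA Pool.Agent.Lib.MP_42948a_nt.TQ Pool.Agent.Lib.MP_42948a_nt.PS
  Pool.Agent.Lib.MP_42948a_nt.TF
open scoped Pointwise

/-- two prime factors -/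
theorem two_primes {n : ℕ} (h : ArithmeticFunction.cardFactors n = 2) : ∃ p q : ℕ, p.Prime ∧ q.Prime ∧ n = p * q := by
  have hn : n ≠ 0 := by
    rintro rfl
    simp at h
  rw [ArithmeticFunction.cardFactors_apply] at h
  obtain ⟨p, q, hpq⟩ := List.length_eq_two.1 h
  refine ⟨p, q, ?_, ?_, ?_⟩
  · exact Nat.prime_of_mem_primeFactorsList (by rw [hpq]; simp)
  · exact Nat.prime_of_mem_primeFactorsList (by rw [hpq]; simp)
  · have := Nat.prod_primeFactorsList hn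
    rw [hpq] at this
    simpa using this.symm

/-- summation over a set of products -/
theorem sum_prod_le (A : Finset ℕ) (B P : Finset ℕ) (h : ∀ n ∈ A, ∃ p ∈ B, ∃ q ∈ P, n = p * q) :
    ∑ n ∈ A, 1 / (n : ℝ) ≤ (∑ p ∈ B, 1 / (p : ℝ)) * ∑ q ∈ P, 1 / (q : ℝ) := by
  classical
  choose! f hf g hg hfg using h
  rw [sum_mul_sum, ← sum_product']
  have hinj : Set.InjOn (fun n => (f n, g n)) (A : Set ℕ) := by
    intro a ha b hb hab
    have h1 : f a = f b := congrArg Prod.fst hab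
    have h2 : g a = g b := congrArg Prod.snd hab
    rw [hfg a ha, hfg b hb, h1, h2]
  have h1 : ∑ n ∈ A, 1 / (n : ℝ) = ∑ z ∈ A.image (fun n => (f n, g n)), 1 / (z.1 : ℝ) * (1 / (z.2 : ℝ)) := by
    rw [sum_image hinj]
    refine sum_congr rfl fun n hn => ?_
    nth_rewrite 1 [hfg n hn]
    push_cast
    rw [one_div_mul_one_div]
  rw [h1]
  refine sum_le_sum_of_subset_of_nonneg ?_ (fun z _ _ => by positivity)
  intro z hz
  obtain ⟨n, hn, rfl⟩ := mem_image.1 hz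
  exact mem_product.2 ⟨hf n hn, hg n hn⟩

open Classical in
theorem coverage (ε0 α : ℝ) (hε0 : 0 < ε0) (hε1 : ε0 ≤ 1 / 1000) (hα : 0 < α) (hα1 : α ≤ 9 / 100) (N0 : ℕ) :
    ∃ κ : ℝ, 0 < κ ∧ ∃ d0 : ℕ, ∀ d : ℕ, d0 ≤ d → ∀ [NeZero d], ∀ (H : Subgroup (ZMod d)ˣ)
      (M : Finset ((ZMod d)ˣ ⧸ H)), H.index ≤ N0 →
      ∑ p ∈ (PW d α (1 + 2 * ε0)).filter (fun p : ℕ => ((ucl d p : (ZMod d)ˣ) : (ZMod d)ˣ ⧸ H) ∉ M), 1 / (p : ℝ) ≤ κ →
      ∀ x : (ZMod d)ˣ ⧸ H, x ∈ M ∨ ∃ a ∈ M, ∃ b ∈ M, a * b = x := by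
  obtain ⟨h0, hh0, hcov⟩ := cover_kr α hα hα1
  set h : ℝ := min h0 ε0 with hh
  have hhpos : 0 < h := lt_min hh0 hε0
  have hhε : h ≤ ε0 := min_le_right _ _
  obtain ⟨c1, hc1, hB⟩ := hcov h hhpos (min_le_left _ _)
  obtain ⟨d1, hd1⟩ := hB N0
  obtain ⟨d2, hd2⟩ := win α (1 + 2 * ε0) 1 hα one_pos
  set C : ℝ := Real.log ((1 + 2 * ε0) / α) + 1 with hC
  have hlog : 0 ≤ Real.log ((1 + 2 * ε0) / α) := by
    apply Real.log_nonneg
    rw [le_div_iff₀ hα]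
    linarith
  have hC0 : 0 < C := by linarith
  refine ⟨c1 / (2 * ((N0 : ℝ) + 1) * (C + 1)), by positivity, max (max d1 d2) 1, ?_⟩
  intro d hd _ H M hH hM x
  have hdd1 : d1 ≤ d := (le_max_left _ _).trans ((le_max_left _ _).trans hd)
  have hdd2 : d2 ≤ d := (le_max_right _ _).trans ((le_max_left _ _).trans hd)
  have hd1' : 1 ≤ d := (le_max_right _ _).trans hd
  set κ : ℝ := c1 / (2 * ((N0 : ℝ) + 1) * (C + 1)) with hκ
  by_contra hcon
  rw [not_or] at hcon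
  obtain ⟨hx1, hx2⟩ := hcon
  obtain ⟨g, rfl⟩ := QuotientGroup.mk_surjective x
  set B : Finset ℕ := (PW d α (1 + 2 * ε0)).filter
    (fun p : ℕ => ((ucl d p : (ZMod d)ˣ) : (ZMod d)ˣ ⧸ H) ∉ M) with hBdef
  have hcard : (SH H).card ≤ N0 := (SH_card H).trans hH
  have hmain := hd1 d hdd1 (SH H) (SH_nonempty H) hcard (1 + ε0) (by linarith) (by linarith) g
  have hN0 : (H.index : ℝ) ≤ N0 := by exact_mod_cast hH
  have hmass : ∑ p ∈ PW d α (1 + 2 * ε0), 1 / (p : ℝ) ≤ C := by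
    have := hd2 d hdd2 α (1 + 2 * ε0) le_rfl (by linarith) le_rfl
    rw [abs_le] at this
    linarith [this.2]
  -- the class of an integer with nonzero kernel
  have hcls : ∀ n : ℕ, kr (SH H) (g * (ucl d n)⁻¹) ≠ 0 →
      ((ucl d n : (ZMod d)ˣ) : (ZMod d)ˣ ⧸ H) = (g : (ZMod d)ˣ ⧸ H) := by
    intro n hn
    have hmem : g * (ucl d n)⁻¹ ∈ H := by
      by_contra hcon
      exact hn (kr_zero H _ hcon)
    rw [QuotientGroup.eq]
    rw [mul_comm] at hmem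
    exact hmem
  have hterm : ∀ A A' : Finset ℕ, (∀ n ∈ A, ((ucl d n : (ZMod d)ˣ) : (ZMod d)ˣ ⧸ H) = (g : (ZMod d)ˣ ⧸ H) → n ∈ A') →
      sm (kr (SH H)) A g ≤ N0 * ∑ n ∈ A.filter (fun n => n ∈ A'), 1 / (n : ℝ) := by
    intro A A' hAA
    unfold sm
    rw [mul_sum, sum_filter]
    refine sum_le_sum fun n hn => ?_
    by_cases hk : kr (SH H) (g * (ucl d n)⁻¹) = 0
    · rw [hk, mul_zero]
      split_ifs <;> positivity
    · rw [if_pos (hAA n hn (hcls n hk)), mul_comm]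
      exact mul_le_mul_of_nonneg_right ((kr_le H _).trans hN0) (by positivity)
  -- primes
  have h1 : sm (kr (SH H)) (EW d α 1 (1 + ε0) (1 + ε0 + h)) g ≤ N0 * κ := by
    refine (hterm _ B ?_).trans (mul_le_mul_of_nonneg_left ?_ (Nat.cast_nonneg _))
    · intro n hn hcl
      rw [EW_one hd1' (by linarith)] at hn
      rw [hBdef, mem_filter]
      refine ⟨PW_mono hd1' (by linarith) (by linarith) hn, ?_⟩
      rw [hcl]
      exact hx1
    · refine (sum_le_sum_of_subset_of_nonneg ?_ (fun _ _ _ => by positivity)).trans hM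
      intro n hn
      exact (mem_filter.1 hn).2
  -- products of two primes
  have h2 : sm (kr (SH H)) (EW d α 2 (1 + ε0) (1 + ε0 + h)) g ≤ N0 * (κ * C) := by
    refine (hterm _ ((EW d α 2 (1 + ε0) (1 + ε0 + h)).filter
      (fun n => ((ucl d n : (ZMod d)ˣ) : (ZMod d)ˣ ⧸ H) = (g : (ZMod d)ˣ ⧸ H))) ?_).trans
      (mul_le_mul_of_nonneg_left ?_ (Nat.cast_nonneg _))
    · intro n hn hcl
      exact mem_filter.2 ⟨hn, hcl⟩
    · refine (sum_prod_le _ B (PW d α (1 + 2 * ε0)) ?_).trans ?_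
      · intro n hn
        obtain ⟨hnE, hn⟩ := mem_filter.1 hn
        have hcl := (mem_filter.1 hn).2
        obtain ⟨⟨hn1, hn2⟩, hn3, hn4, hn5⟩ := mem_EW.1 hnE
        obtain ⟨p, q, hp, hq, rfl⟩ := two_primes hn5
        have hpd : p.Coprime d := Nat.Coprime.coprime_mul_right hn4
        have hqd : q.Coprime d := Nat.Coprime.coprime_mul_left hn4
        have hup : ⌊(d : ℝ) ^ (1 + ε0 + h)⌋₊ ≤ ⌊(d : ℝ) ^ (1 + 2 * ε0)⌋₊ :=
          Nat.floor_le_floor (Real.rpow_le_rpow_of_exponent_le (by exact_mod_cast hd1') (by linarith))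
        have hpP : p ∈ PW d α (1 + 2 * ε0) := by
          rw [mem_PW]
          refine ⟨hp, hn3.2 p hp (dvd_mul_right p q), ?_, (Nat.Prime.coprime_iff_not_dvd hp).1 hpd⟩
          exact (Nat.le_mul_of_pos_right p hq.pos).trans (hn2.trans hup)
        have hqP : q ∈ PW d α (1 + 2 * ε0) := by
          rw [mem_PW]
          refine ⟨hq, hn3.2 q hq (dvd_mul_left q p), ?_, (Nat.Prime.coprime_iff_not_dvd hq).1 hqd⟩
          exact (Nat.le_mul_of_pos_left q hp.pos).trans (hn2.trans hup)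
        have hprod : ((ucl d (p * q) : (ZMod d)ˣ) : (ZMod d)ˣ ⧸ H) =
            ((ucl d p : (ZMod d)ˣ) : (ZMod d)ˣ ⧸ H) * ((ucl d q : (ZMod d)ˣ) : (ZMod d)ˣ ⧸ H) := by
          rw [ucl_mul hpd hqd, QuotientGroup.mk_mul]
        by_cases hpM : ((ucl d p : (ZMod d)ˣ) : (ZMod d)ˣ ⧸ H) ∈ M
        · by_cases hqM : ((ucl d q : (ZMod d)ˣ) : (ZMod d)ˣ ⧸ H) ∈ M
          · exfalso
            apply hx2
            exact ⟨_, hpM, _, hqM, by rw [← hcl, hprod]⟩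
          · exact ⟨q, mem_filter.2 ⟨hqP, hqM⟩, p, hpP, mul_comm p q⟩
        · exact ⟨p, mem_filter.2 ⟨hpP, hpM⟩, q, hqP, rfl⟩
      · have hB0 : 0 ≤ ∑ q ∈ PW d α (1 + 2 * ε0), 1 / (q : ℝ) := sum_nonneg (fun _ _ => by positivity)
        exact mul_le_mul hM hmass hB0 (by positivity)
  have h3 : (N0 : ℝ) * κ + N0 * (κ * C) < c1 := by
    have e : (N0 : ℝ) * κ + N0 * (κ * C) = N0 * (C + 1) * κ := by ring
    rw [e, hκ]
    rw [mul_div_assoc', div_lt_iff₀ (by positivity)]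
    have hN : (0 : ℝ) ≤ N0 := Nat.cast_nonneg _
    have h4 : 0 < (C + 1) * c1 := by positivity
    nlinarith
  linarith

end Pool.Agent.Lib.MP_42948a_nt.EG
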