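import Mathlib

/-!
# The finite endgame: quotients of order two and five
-/

set_option linter.unusedSectionVars false

namespace Pool.Agent.Lib.MP_42948a_nt.EG

open Finset
open scoped Pointwise

/-- order five: `M ∪ M M = Q` forces `M = {a, a⁻¹}` -/
theorem five_set {Q : Type} [Group Q] [Finite Q] (M : Finset Q) (hQ : Nat.card Q = 5)
    (hM : M.card = 2) (hcov : ∀ x : Q, x ∈ M ∨ ∃ a ∈ M, ∃ b ∈ M, a * b = x) :
    ∃ a : Q, a ≠ 1 ∧ ∀ x ∈ M, x = a ∨ x = a⁻¹ := by
  classical
  have := Fintype.ofFinite Q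
  rw [Nat.card_eq_fintype_card] at hQ
  obtain ⟨u, v, huv, rfl⟩ := card_eq_two.1 hM
  -- `1` is not in `M`
  have key : ∀ w : Q, ¬ (∀ x : Q, x ∈ ({1, w, w * w} : Finset Q)) := by
    intro w h
    have h1 : (univ : Finset Q) ⊆ {1, w, w * w} := fun x _ => h x
    have h2 := card_le_card h1
    rw [card_univ, hQ] at h2
    have h3 : ({1, w, w * w} : Finset Q).card ≤ 3 := card_le_three
    omega
  have hu : u ≠ 1 := by
    intro hu
    apply key v
    intro x
    rw [hu] at hcov
    rcases hcov x with h | ⟨a, ha, b, hb, rfl⟩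
    · rw [mem_insert, mem_singleton] at h
      rcases h with h | h <;> simp [h]
    · rw [mem_insert, mem_singleton] at ha hb
      rcases ha with rfl | rfl <;> rcases hb with rfl | rfl <;> simp
  have hv : v ≠ 1 := by
    intro hv
    apply key u
    intro x
    rw [hv] at hcov
    rcases hcov x with h | ⟨a, ha, b, hb, rfl⟩
    · rw [mem_insert, mem_singleton] at h
      rcases h with h | h <;> simp [h]
    · rw [mem_insert, mem_singleton] at ha hb
      rcases ha with rfl | rfl <;> rcases hb with rfl | rfl <;> simp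
  have hsq : ∀ x : Q, x * x = 1 → x = 1 := by
    intro x h
    have h5 : x ^ 5 = 1 := by
      rw [← hQ]
      exact pow_card_eq_one
    calc x = x ^ 5 * ((x * x)⁻¹ * (x * x)⁻¹) := by group
      _ = 1 := by rw [h5, h]; simp
  rcases hcov 1 with h | ⟨a, ha, b, hb, hab⟩
  · rw [mem_insert, mem_singleton] at h
    rcases h with h | h
    · exact absurd h.symm hu
    · exact absurd h.symm hv
  · rw [mem_insert, mem_singleton] at ha hb
    rcases ha with rfl | rfl <;> rcases hb with rfl | rfl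
    · exact absurd (hsq _ hab) hu
    · refine ⟨a, hu, fun x hx => ?_⟩
      rw [mem_insert, mem_singleton] at hx
      rcases hx with rfl | rfl
      · left; rfl
      · right; exact eq_inv_of_mul_eq_one_right hab
    · refine ⟨a, hv, fun x hx => ?_⟩
      rw [mem_insert, mem_singleton] at hx
      rcases hx with rfl | rfl
      · right; exact eq_inv_of_mul_eq_one_right hab
      · left; rfl
    · exact absurd (hsq _ hab) hv

/-- order two -/
theorem two_set {Q : Type} [Group Q] (M : Finset Q) (hM : M.card = 1) (x0 : Q) (hx0 : x0 ≠ 1)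
    (hcov : ∀ x : Q, x ∈ M ∨ ∃ a ∈ M, ∃ b ∈ M, a * b = x) :
    (1 : Q) ∉ M ∧ ∀ c : Q, (∀ a ∈ M, ∀ b ∈ M, ∀ e ∈ M, a * b * e ≠ c) → c = 1 := by
  obtain ⟨a, rfl⟩ := card_eq_one.1 hM
  have hcov' : ∀ x : Q, x = a ∨ a * a = x := by
    intro x
    rcases hcov x with h | ⟨u, hu, v, hv, huv⟩
    · left; exact mem_singleton.1 h
    · right
      rw [mem_singleton] at hu hv
      rw [← huv, hu, hv]
  have ha1 : a ≠ 1 := by
    intro h1
    have h2 := hcov' x0
    rw [h1, mul_one] at h2
    rcases h2 with h2 | h2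
    · exact hx0 h2
    · exact hx0 h2.symm
  have haa : a * a = 1 := by
    rcases hcov' 1 with h | h
    · exact absurd h.symm ha1
    · exact h
  refine ⟨?_, fun c hc => ?_⟩
  · rw [mem_singleton]
    exact fun h => ha1 h.symm
  · rcases hcov' c with h | h
    · exfalso
      refine hc a (mem_singleton_self a) a (mem_singleton_self a) a (mem_singleton_self a) ?_
      rw [haa, one_mul, h]
    · rw [← h, haa]

/-- `cos (2 π / 5) > 3 / 10` -/
theorem cos_five : 3 / 10 < Real.cos (2 * Real.pi / 5) := by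
  have h1 : Real.cos (2 * Real.pi / 5) = 2 * Real.cos (Real.pi / 5) ^ 2 - 1 := by
    rw [← Real.cos_two_mul]
    congr 1
    ring
  rw [h1, Real.cos_pi_div_five]
  have h2 : (0 : ℝ) ≤ √5 := Real.sqrt_nonneg 5
  have h3 : √5 ^ 2 = 5 := Real.sq_sqrt (by norm_num)
  have h4 : (2.2 : ℝ) < √5 := Real.lt_sqrt_of_sq_lt (by norm_num)
  nlinarith

/-- a character of a group of order five -/
theorem char_five {Q : Type} [Group Q] [Finite Q] (hQ : Nat.card Q = 5) (a : Q) (ha : a ≠ 1) :
    ∃ φ : Q →* ℂˣ, (∀ x, φ x ^ 5 = 1) ∧ 3 / 10 < ((φ a : ℂˣ) : ℂ).re ∧ 3 / 10 < ((φ a⁻¹ : ℂˣ) : ℂ).re ∧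
      φ a ≠ 1 := by
  have : Fact (Nat.Prime 5) := ⟨by norm_num⟩
  have hcyc : IsCyclic Q := isCyclic_of_prime_card hQ
  have hgen : ∀ x : Q, x ∈ Subgroup.zpowers a := by
    intro x
    have := mem_zpowers_of_prime_card hQ ha (g' := x)
    exact this
  set ζ : ℂˣ := Units.mk0 (Complex.exp (2 * Real.pi * Complex.I / 5)) (Complex.exp_ne_zero _) with hζ
  have hζ5 : ζ ^ (Nat.card Q) = 1 := by
    rw [hQ]
    ext
    rw [Units.val_pow_eq_pow_val, hζ, Units.val_mk0, ← Complex.exp_nat_mul, Units.val_one]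
    rw [Complex.exp_eq_one_iff]
    exact ⟨1, by push_cast; ring⟩
  have hord : orderOf ζ ∣ orderOf a := by
    rw [orderOf_eq_card_of_forall_mem_zpowers hgen]
    exact orderOf_dvd_of_pow_eq_one hζ5
  set φ : Q →* ℂˣ := monoidHomOfForallMemZpowers hgen hord with hφdef
  have hφa : φ a = ζ := monoidHomOfForallMemZpowers_apply_gen hgen hord
  have hre : ((ζ : ℂˣ) : ℂ).re = Real.cos (2 * Real.pi / 5) := by
    rw [hζ, Units.val_mk0]
    have e : 2 * (Real.pi : ℂ) * Complex.I / 5 = ((2 * Real.pi / 5 : ℝ) : ℂ) * Complex.I := by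
      push_cast
      ring
    rw [e, Complex.exp_ofReal_mul_I_re]
  have him : ((ζ : ℂˣ) : ℂ).im = Real.sin (2 * Real.pi / 5) := by
    rw [hζ, Units.val_mk0]
    have e : 2 * (Real.pi : ℂ) * Complex.I / 5 = ((2 * Real.pi / 5 : ℝ) : ℂ) * Complex.I := by
      push_cast
      ring
    rw [e, Complex.exp_ofReal_mul_I_im]
  have hinv : (((ζ⁻¹ : ℂˣ)) : ℂ).re = Real.cos (2 * Real.pi / 5) := by
    rw [Units.val_inv_eq_inv_val, Complex.inv_re, hre]
    have : Complex.normSq ((ζ : ℂˣ) : ℂ) = 1 := by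
      rw [Complex.normSq_apply, hre, him, ← pow_two, ← pow_two, Real.cos_sq_add_sin_sq]
    rw [this, div_one]
  refine ⟨φ, fun x => ?_, ?_, ?_, ?_⟩
  · rw [← map_pow, ← hQ, pow_card_eq_one', map_one]
  · rw [hφa, hre]
    exact cos_five
  · rw [map_inv, hφa, hinv]
    exact cos_five
  · rw [hφa]
    intro h
    rw [h, Units.val_one, Complex.one_re] at hre
    have h1 : Real.cos (2 * Real.pi / 5) < Real.cos 0 :=
      Real.cos_lt_cos_of_nonneg_of_le_pi (le_refl 0) (by have := Real.pi_pos; linarith)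
        (by have := Real.pi_pos; linarith)
    rw [Real.cos_zero, ← hre] at h1
    exact lt_irrefl _ h1

end Pool.Agent.Lib.MP_42948a_nt.EG
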