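import Mathlib
import Pool.Agent.Lib.MP_42948a_nt.TF.BR

/-!
# The kernel of the characters trivial on a subgroup
-/

set_option linter.unusedSectionVars false

namespace Pool.Agent.Lib.MP_42948a_nt.EG

open Finset Pool.Agent.Lib.MP_42948a_nt.OA Pool.Agent.Lib.MP_42948a_nt.TQ Pool.Agent.Lib.MP_42948a_nt.PS
  Pool.Agent.Lib.MP_42948a_nt.TF

theorem enough (Q : Type) [CommGroup Q] [Finite Q] : HasEnoughRootsOfUnity ℂ (Monoid.exponent Q) := by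
  have : NeZero (Monoid.exponent Q) := ⟨Monoid.exponent_ne_zero_of_finite⟩
  infer_instance

variable {d : ℕ} [NeZero d]

/-- the Dirichlet character of a character of the quotient -/
noncomputable def lft (H : Subgroup (ZMod d)ˣ) (φ : (ZMod d)ˣ ⧸ H →* ℂˣ) : DirichletCharacter ℂ d :=
  MulChar.ofUnitHom (φ.comp (QuotientGroup.mk' H))

theorem ev_lft (H : Subgroup (ZMod d)ˣ) (φ : (ZMod d)ˣ ⧸ H →* ℂˣ) (g : (ZMod d)ˣ) :
    ev (lft H φ) g = ((φ ((g : (ZMod d)ˣ) : (ZMod d)ˣ ⧸ H) : ℂˣ) : ℂ) := by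
  unfold ev lft
  rw [MulChar.ofUnitHom_coe]
  rfl

theorem lft_mul (H : Subgroup (ZMod d)ˣ) (φ ψ : (ZMod d)ˣ ⧸ H →* ℂˣ) : lft H (φ * ψ) = lft H φ * lft H ψ := by
  apply ev_inj
  intro a
  rw [ev_mul_char, ev_lft, ev_lft, ev_lft, MonoidHom.mul_apply, Units.val_mul]

theorem finite_hom (H : Subgroup (ZMod d)ˣ) : Finite ((ZMod d)ˣ ⧸ H →* ℂˣ) := by
  have := enough ((ZMod d)ˣ ⧸ H)
  obtain ⟨e⟩ := CommGroup.monoidHom_mulEquiv_of_hasEnoughRootsOfUnity ((ZMod d)ˣ ⧸ H) ℂ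
  exact Finite.of_equiv _ e.toEquiv.symm

open Classical in
/-- the characters trivial on `H` -/
noncomputable def SH (H : Subgroup (ZMod d)ˣ) : Finset (DirichletCharacter ℂ d) :=
  univ.filter (fun χ => ∃ φ, lft H φ = χ)

theorem mem_SH {H : Subgroup (ZMod d)ˣ} {χ : DirichletCharacter ℂ d} : χ ∈ SH H ↔ ∃ φ, lft H φ = χ := by
  classical
  unfold SH
  simp

theorem SH_nonempty (H : Subgroup (ZMod d)ˣ) : (SH H).Nonempty := ⟨lft H 1, mem_SH.2 ⟨1, rfl⟩⟩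

theorem SH_card (H : Subgroup (ZMod d)ˣ) : (SH H).card ≤ H.index := by
  classical
  have hfin := finite_hom H
  have := enough ((ZMod d)ˣ ⧸ H)
  have := Fintype.ofFinite ((ZMod d)ˣ ⧸ H →* ℂˣ)
  have h1 : SH H ⊆ univ.image (lft H) := by
    intro χ hχ
    obtain ⟨φ, rfl⟩ := mem_SH.1 hχ
    exact mem_image_of_mem _ (mem_univ _)
  refine (card_le_card h1).trans (card_image_le.trans ?_)
  rw [card_univ, ← Nat.card_eq_fintype_card,
    CommGroup.card_monoidHom_of_hasEnoughRootsOfUnity ((ZMod d)ˣ ⧸ H) ℂ, Subgroup.index_eq_card]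

theorem sum_SH (H : Subgroup (ZMod d)ˣ) (g : (ZMod d)ˣ) (hg : g ∉ H) : ∑ ψ ∈ SH H, ev ψ g = 0 := by
  have hg1 : ((g : (ZMod d)ˣ) : (ZMod d)ˣ ⧸ H) ≠ 1 := by
    intro h
    exact hg ((QuotientGroup.eq_one_iff g).1 h)
  have := enough ((ZMod d)ˣ ⧸ H)
  obtain ⟨φ0, hφ0⟩ := CommGroup.exists_apply_ne_one_of_hasEnoughRootsOfUnity ((ZMod d)ˣ ⧸ H) ℂ hg1
  have h1 : ∑ ψ ∈ SH H, ev ψ g = ev (lft H φ0) g * ∑ ψ ∈ SH H, ev ψ g := by
    rw [mul_sum]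
    symm
    refine sum_bij (fun ψ _ => lft H φ0 * ψ) ?_ ?_ ?_ ?_
    · intro ψ hψ
      obtain ⟨φ, rfl⟩ := mem_SH.1 hψ
      exact mem_SH.2 ⟨φ0 * φ, lft_mul H φ0 φ⟩
    · intro a _ b _ hab
      exact mul_left_cancel hab
    · intro ψ hψ
      obtain ⟨φ, rfl⟩ := mem_SH.1 hψ
      refine ⟨lft H (φ0⁻¹ * φ), mem_SH.2 ⟨_, rfl⟩, ?_⟩
      have e : φ0 * (φ0⁻¹ * φ) = φ := by
        apply MonoidHom.ext
        intro x
        rw [MonoidHom.mul_apply, MonoidHom.mul_apply, MonoidHom.inv_apply, mul_inv_cancel_left]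
      rw [← lft_mul, e]
    · intro ψ _
      rw [ev_mul_char]
  have h2 : ev (lft H φ0) g ≠ 1 := by
    rw [ev_lft]
    intro h
    exact hφ0 (Units.ext h)
  have h3 : (ev (lft H φ0) g - 1) * ∑ ψ ∈ SH H, ev ψ g = 0 := by
    rw [sub_mul, one_mul, ← h1, sub_self]
  rcases mul_eq_zero.1 h3 with h4 | h4
  · exact absurd (sub_eq_zero.1 h4) h2
  · exact h4

theorem kr_zero (H : Subgroup (ZMod d)ˣ) (g : (ZMod d)ˣ) (hg : g ∉ H) : kr (SH H) g = 0 := by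
  unfold kr EK.bt
  rw [sum_SH H g hg]
  simp

theorem kr_le (H : Subgroup (ZMod d)ˣ) (g : (ZMod d)ˣ) : kr (SH H) g ≤ H.index := by
  have hφ : (0 : ℝ) < (Fintype.card (ZMod d)ˣ : ℝ) := by
    have : 0 < Fintype.card (ZMod d)ˣ := Fintype.card_pos
    exact_mod_cast this
  have hS : (0 : ℝ) < ((SH H).card : ℝ) := by
    have := card_pos.2 (SH_nonempty H)
    exact_mod_cast this
  have h1 : ‖∑ ψ ∈ SH H, ev ψ g‖ ≤ ((SH H).card : ℝ) := by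
    refine (norm_sum_le _ _).trans ?_
    have h2 : ∀ ψ ∈ SH H, ‖ev ψ g‖ ≤ 1 := fun ψ _ => DirichletCharacter.norm_le_one ψ _
    refine (sum_le_sum h2).trans ?_
    rw [sum_const, nsmul_eq_mul, mul_one]
  have h3 : kr (SH H) g = ‖∑ ψ ∈ SH H, ev ψ g‖ ^ 2 / ((SH H).card : ℝ) := by
    unfold kr EK.bt
    field_simp
  rw [h3, div_le_iff₀ hS]
  have h4 : ((SH H).card : ℝ) ≤ (H.index : ℝ) := by exact_mod_cast SH_card H
  have h5 : ‖∑ ψ ∈ SH H, ev ψ g‖ ^ 2 ≤ ((SH H).card : ℝ) ^ 2 := pow_le_pow_left₀ (norm_nonneg _) h1 2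
  nlinarith

end Pool.Agent.Lib.MP_42948a_nt.EG
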