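import Pool.Agent.Lib.MP_42948a_nt.TP.Defs
import Pool.Agent.Lib.MP_42948a_nt.TF.M1

/-!
# The index is two or five
-/

set_option linter.unusedSectionVars false

namespace Pool.Agent.Lib.MP_42948a_nt.EG

open Finset Pool.Agent.Lib.MP_42948a_nt.OA Pool.Agent.Lib.MP_42948a_nt.TQ Pool.Agent.Lib.MP_42948a_nt.PS
  Pool.Agent.Lib.MP_42948a_nt.TF

theorem num_core (ε0 : ℝ) (hε0 : 0 < ε0) (hε1 : ε0 ≤ 1 / 1000) (n m : ℝ) (hn : 0 < n) (hm : 0 ≤ m)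
    (h : n * (Real.log ((1 + ε0 + ε0 / 100) / (1 + ε0)) - ε0 ^ 2 / 10000) ≤
      m * ((1 + ε0 / 100) * (2 * (ε0 / 100) / (1 + ε0 - 1 / 4 - ε0 / 100)))) :
    3 * n < 8 * m := by
  have h1 : 1 - ((1 + ε0 + ε0 / 100) / (1 + ε0))⁻¹ ≤ Real.log ((1 + ε0 + ε0 / 100) / (1 + ε0)) :=
    Real.one_sub_inv_le_log_of_pos (by positivity)
  have h2 : 1 - ((1 + ε0 + ε0 / 100) / (1 + ε0))⁻¹ = (ε0 / 100) / (1 + ε0 + ε0 / 100) := by
    field_simp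
    ring
  rw [h2] at h1
  have hA : 0 < 1 + ε0 + ε0 / 100 := by positivity
  have hB : 0 < 1 + ε0 - 1 / 4 - ε0 / 100 := by linarith
  have h3 : n * ((ε0 / 100) / (1 + ε0 + ε0 / 100) - ε0 ^ 2 / 10000) ≤
      m * ((1 + ε0 / 100) * (2 * (ε0 / 100) / (1 + ε0 - 1 / 4 - ε0 / 100))) :=
    (mul_le_mul_of_nonneg_left (by linarith) hn.le).trans h
  have h4 : n * (((ε0 / 100) / (1 + ε0 + ε0 / 100) - ε0 ^ 2 / 10000) * ((1 + ε0 + ε0 / 100) * (1 + ε0 - 1 / 4 - ε0 / 100))) ≤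
      m * ((1 + ε0 / 100) * (2 * (ε0 / 100) / (1 + ε0 - 1 / 4 - ε0 / 100)) * ((1 + ε0 + ε0 / 100) * (1 + ε0 - 1 / 4 - ε0 / 100))) := by
    have := mul_le_mul_of_nonneg_right h3 (mul_pos hA hB).le
    linarith
  have e1 : ((ε0 / 100) / (1 + ε0 + ε0 / 100) - ε0 ^ 2 / 10000) * ((1 + ε0 + ε0 / 100) * (1 + ε0 - 1 / 4 - ε0 / 100)) =
      (ε0 / 100) * ((1 + ε0 - 1 / 4 - ε0 / 100) - ε0 / 100 * (1 + ε0 + ε0 / 100) * (1 + ε0 - 1 / 4 - ε0 / 100)) := by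
    have hgen : ∀ A B : ℝ, A ≠ 0 → ((ε0 / 100) / A - ε0 ^ 2 / 10000) * (A * B) =
        (ε0 / 100) * (B - ε0 / 100 * A * B) := by
      intro A B hA
      field_simp
      ring
    exact hgen _ _ hA.ne'
  have e2 : (1 + ε0 / 100) * (2 * (ε0 / 100) / (1 + ε0 - 1 / 4 - ε0 / 100)) * ((1 + ε0 + ε0 / 100) * (1 + ε0 - 1 / 4 - ε0 / 100)) =
      (ε0 / 100) * (2 * (1 + ε0 / 100) * (1 + ε0 + ε0 / 100)) := by
    have hgen : ∀ A B : ℝ, B ≠ 0 → (1 + ε0 / 100) * (2 * (ε0 / 100) / B) * (A * B) =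
        (ε0 / 100) * (2 * (1 + ε0 / 100) * A) := by
      intro A B hB
      field_simp
    exact hgen _ _ hB.ne'
  rw [e1, e2] at h4
  have h5 : n * ((1 + ε0 - 1 / 4 - ε0 / 100) - ε0 / 100 * (1 + ε0 + ε0 / 100) * (1 + ε0 - 1 / 4 - ε0 / 100)) ≤
      m * (2 * (1 + ε0 / 100) * (1 + ε0 + ε0 / 100)) := by
    have hε : 0 < ε0 / 100 := by positivity
    have h6 : (ε0 / 100) * (n * ((1 + ε0 - 1 / 4 - ε0 / 100) - ε0 / 100 * (1 + ε0 + ε0 / 100) * (1 + ε0 - 1 / 4 - ε0 / 100))) ≤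
      (ε0 / 100) * (m * (2 * (1 + ε0 / 100) * (1 + ε0 + ε0 / 100))) := by linarith
    exact le_of_mul_le_mul_left h6 hε
  -- lower bound of the left side and upper bound of the right side
  have h7 : (3 / 4 + 95 / 100 * ε0) ≤ (1 + ε0 - 1 / 4 - ε0 / 100) - ε0 / 100 * (1 + ε0 + ε0 / 100) * (1 + ε0 - 1 / 4 - ε0 / 100) := by
    have h8 : (1 + ε0 + ε0 / 100) * (1 + ε0 - 1 / 4 - ε0 / 100) ≤ 2 := by nlinarith
    have h9 : 0 ≤ ε0 / 100 := by positivity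
    nlinarith
  have h10 : 2 * (1 + ε0 / 100) * (1 + ε0 + ε0 / 100) ≤ 2 + 205 / 100 * ε0 := by nlinarith
  have h11 : n * (3 / 4 + 95 / 100 * ε0) ≤ m * (2 + 205 / 100 * ε0) :=
    (mul_le_mul_of_nonneg_left h7 hn.le).trans (h5.trans (mul_le_mul_of_nonneg_left h10 hm))
  by_contra hcon
  push Not at hcon
  have h12 : m * (2 + 205 / 100 * ε0) ≤ 3 / 8 * n * (2 + 205 / 100 * ε0) :=
    mul_le_mul_of_nonneg_right (by linarith) (by positivity)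
  have h13 : 0 < n * ε0 := by positivity
  nlinarith

open Classical in
theorem index_small (hS : TP.Sharp4) (ε0 : ℝ) (hε0 : 0 < ε0) (hε1 : ε0 ≤ 1 / 1000) (N0 : ℕ) :
    ∃ κ : ℝ, 0 < κ ∧ ∃ d0 : ℕ, ∀ d : ℕ, d0 ≤ d → ∀ [NeZero d], ∀ (H : Subgroup (ZMod d)ˣ)
      (M : Finset ((ZMod d)ˣ ⧸ H)), H.index ≤ N0 →
      ∑ p ∈ (PW d (1 + ε0) (1 + 2 * ε0)).filter (fun p : ℕ => ((ucl d p : (ZMod d)ˣ) : (ZMod d)ˣ ⧸ H) ∉ M), 1 / (p : ℝ) ≤ κ →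
      3 * H.index < 8 * M.card := by
  obtain ⟨d1, hd1⟩ := hS N0 (ε0 / 100) (1 + ε0) (ε0 / 100) (by positivity) (by linarith) (by linarith)
    (by positivity) (by linarith)
  obtain ⟨d2, hd2⟩ := win (1 + ε0) (1 + ε0 + ε0 / 100) (ε0 ^ 2 / 20000) (by linarith) (by positivity)
  refine ⟨ε0 ^ 2 / 20000, by positivity, max (max d1 d2) 1, ?_⟩
  intro d hd _ H M hH hM
  have hdd1 : d1 ≤ d := (le_max_left _ _).trans ((le_max_left _ _).trans hd)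
  have hdd2 : d2 ≤ d := (le_max_right _ _).trans ((le_max_left _ _).trans hd)
  have hd1' : 1 ≤ d := (le_max_right _ _).trans hd
  have hmass := hd2 d hdd2 (1 + ε0) (1 + ε0 + ε0 / 100) le_rfl (by linarith) le_rfl
  rw [abs_le] at hmass
  set W : Finset ℕ := PW d (1 + ε0) (1 + ε0 + ε0 / 100) with hW
  have hsplit : ∑ p ∈ W, 1 / (p : ℝ) ≤
      ∑ z ∈ M, ∑ p ∈ W.filter (fun p : ℕ => ((ucl d p : (ZMod d)ˣ) : (ZMod d)ˣ ⧸ H) = z), 1 / (p : ℝ) +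
      ε0 ^ 2 / 20000 := by
    rw [← sum_filter_add_sum_filter_not W (fun p : ℕ => ((ucl d p : (ZMod d)ˣ) : (ZMod d)ˣ ⧸ H) ∈ M)]
    refine add_le_add ?_ ?_
    · rw [← sum_fiberwise_of_maps_to (s := W.filter (fun p : ℕ => ((ucl d p : (ZMod d)ˣ) : (ZMod d)ˣ ⧸ H) ∈ M)) (t := M)
        (g := fun p : ℕ => ((ucl d p : (ZMod d)ˣ) : (ZMod d)ˣ ⧸ H)) (fun p hp => (mem_filter.1 hp).2)]
      refine sum_le_sum fun z _ => ?_
      refine sum_le_sum_of_subset_of_nonneg ?_ (fun _ _ _ => by positivity)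
      intro p hp
      rw [mem_filter, mem_filter] at hp
      exact mem_filter.2 ⟨hp.1.1, hp.2⟩
    · refine (sum_le_sum_of_subset_of_nonneg ?_ (fun _ _ _ => by positivity)).trans hM
      intro p hp
      rw [mem_filter] at hp ⊢
      exact ⟨PW_mono hd1' le_rfl (by linarith) hp.1, hp.2⟩
  have hsharp : (H.index : ℝ) * ∑ z ∈ M, ∑ p ∈ W.filter (fun p : ℕ => ((ucl d p : (ZMod d)ˣ) : (ZMod d)ˣ ⧸ H) = z), 1 / (p : ℝ) ≤
      M.card * ((1 + ε0 / 100) * (2 * (ε0 / 100) / (1 + ε0 - 1 / 4 - ε0 / 100))) := by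
    rw [mul_sum, ← nsmul_eq_mul, ← sum_const]
    exact sum_le_sum fun z _ => hd1 d hdd1 H hH z
  have hidx : 0 < H.index := Nat.pos_of_ne_zero Subgroup.index_ne_zero_of_finite
  have hidx' : (0 : ℝ) < (H.index : ℝ) := by exact_mod_cast hidx
  have hfin := num_core ε0 hε0 hε1 (H.index : ℝ) (M.card : ℝ) hidx' (Nat.cast_nonneg _) ?_
  · exact_mod_cast hfin
  · refine (mul_le_mul_of_nonneg_left ?_ hidx'.le).trans hsharp
    have := hmass.1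
    linarith

end Pool.Agent.Lib.MP_42948a_nt.EG
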