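import Pool.Agent.Lib.MP_42948a_nt.EG.Fin
import Pool.Agent.Lib.MP_42948a_nt.EG.Cov
import Pool.Agent.Lib.MP_42948a_nt.EG.Num
import Pool.Agent.Lib.MP_42948a_nt.TF.FE

/-!
# The endgame
-/

set_option linter.unusedSectionVars false

namespace Pool.Agent.Lib.MP_42948a_nt.EG

open Finset Pool.Agent.Lib.MP_42948a_nt.OA Pool.Agent.Lib.MP_42948a_nt.TQ Pool.Agent.Lib.MP_42948a_nt.PS
  Pool.Agent.Lib.MP_42948a_nt.TF
open scoped Pointwise

open Classical in
/-- the character of a subgroup of index two -/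
noncomputable def psi2 {G : Type} [CommGroup G] (H : Subgroup G) (hH : H.index = 2) : G →* ℤˣ where
  toFun x := if x ∈ H then 1 else -1
  map_one' := by rw [if_pos H.one_mem]
  map_mul' := by
    intro x y
    have h := Subgroup.mul_mem_iff_of_index_two hH (a := x) (b := y)
    by_cases hx : x ∈ H <;> by_cases hy : y ∈ H <;> by_cases hxy : x * y ∈ H <;> simp [hx, hy, hxy] <;> tauto

theorem psi2_of_mem {G : Type} [CommGroup G] (H : Subgroup G) (hH : H.index = 2) {x : G} (hx : x ∈ H) :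
    psi2 H hH x = 1 := by
  classical
  exact if_pos hx

theorem psi2_of_notMem {G : Type} [CommGroup G] (H : Subgroup G) (hH : H.index = 2) {x : G} (hx : x ∉ H) :
    psi2 H hH x = -1 := by
  classical
  exact if_neg hx

/-- index two -/
theorem end_two {d : ℕ} [NeZero d] (H : Subgroup (ZMod d)ˣ) (M : Finset ((ZMod d)ˣ ⧸ H)) (c : (ZMod d)ˣ)
    (hH : H.index = 2) (hM : M.card = 1)
    (hc : ∀ a ∈ M, ∀ b ∈ M, ∀ e ∈ M, a * b * e ≠ (c : (ZMod d)ˣ ⧸ H))
    (hcov : ∀ x : (ZMod d)ˣ ⧸ H, x ∈ M ∨ ∃ a ∈ M, ∃ b ∈ M, a * b = x) :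
    psi2 H hH ≠ 1 ∧ psi2 H hH c = 1 ∧ (1 : (ZMod d)ˣ ⧸ H) ∉ M := by
  have hex : ∃ g : (ZMod d)ˣ, g ∉ H := by
    by_contra hcon
    push Not at hcon
    have : H = ⊤ := by
      ext x
      simp [hcon x]
    rw [this, Subgroup.index_top] at hH
    omega
  obtain ⟨g, hg⟩ := hex
  have hg1 : (g : (ZMod d)ˣ ⧸ H) ≠ 1 := fun h => hg ((QuotientGroup.eq_one_iff g).1 h)
  obtain ⟨h1, h2⟩ := two_set M hM (g : (ZMod d)ˣ ⧸ H) hg1 hcov
  refine ⟨?_, ?_, h1⟩
  · intro h
    have h1 := psi2_of_notMem H hH hg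
    rw [h] at h1
    simp at h1
  · exact psi2_of_mem H hH ((QuotientGroup.eq_one_iff c).1 (h2 _ hc))

theorem endgame (hP : TP.Pos) (hS : TP.Sharp4) : TP.Endgame := by
  classical
  intro ε0 hε0 hε1 N0
  obtain ⟨κe, αe, hκe, hαe, hexc⟩ := exc_end ε0 hε0 hε1
  obtain ⟨s0, hs0, hpos⟩ := hP 5 (by norm_num)
  refine ⟨min (min αe s0) (9 / 100), lt_min (lt_min hαe hs0) (by norm_num), ?_⟩
  intro α hα hαle
  have hα1 : α ≤ αe := hαle.trans ((min_le_left _ _).trans (min_le_left _ _))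
  have hα2 : α ≤ s0 := hαle.trans ((min_le_left _ _).trans (min_le_right _ _))
  have hα3 : α ≤ 9 / 100 := hαle.trans (min_le_right _ _)
  obtain ⟨d1, hd1⟩ := hexc α hα hα1
  obtain ⟨σ, hσ, d2, hd2⟩ := hpos α hα hα2
  obtain ⟨κc, hκc, d3, hd3⟩ := coverage ε0 α hε0 hε1 hα hα3 N0
  obtain ⟨κi, hκi, d4, hd4⟩ := index_small hS ε0 hε0 hε1 N0
  refine ⟨min (min (κe / 2) (σ / 2)) (min κc κi),
    lt_min (lt_min (by linarith) (by linarith)) (lt_min hκc hκi), max (max d1 d2) (max (max d3 d4) 1), ?_⟩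
  intro d hd _ H M c hH hM hMM hc hmass
  have hdd1 : d1 ≤ d := (le_max_left _ _).trans ((le_max_left _ _).trans hd)
  have hdd2 : d2 ≤ d := (le_max_right _ _).trans ((le_max_left _ _).trans hd)
  have hdd3 : d3 ≤ d := (le_max_left _ _).trans ((le_max_left _ _).trans ((le_max_right _ _).trans hd))
  have hdd4 : d4 ≤ d := (le_max_right _ _).trans ((le_max_left _ _).trans ((le_max_right _ _).trans hd))
  have hd1' : 1 ≤ d := (le_max_right _ _).trans ((le_max_right _ _).trans hd)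
  have hme : ∑ p ∈ (PW d α (1 + 2 * ε0)).filter (fun p : ℕ => ((ucl d p : (ZMod d)ˣ) : (ZMod d)ˣ ⧸ H) ∉ M),
      1 / (p : ℝ) ≤ κe / 2 := hmass.trans ((min_le_left _ _).trans (min_le_left _ _))
  have hmσ : ∑ p ∈ (PW d α (1 + 2 * ε0)).filter (fun p : ℕ => ((ucl d p : (ZMod d)ˣ) : (ZMod d)ˣ ⧸ H) ∉ M),
      1 / (p : ℝ) ≤ σ / 2 := hmass.trans ((min_le_left _ _).trans (min_le_right _ _))
  have hcov := hd3 d hdd3 H M hH (hmass.trans ((min_le_right _ _).trans (min_le_left _ _)))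
  have hidx := hd4 d hdd4 H M hH (by
    refine (sum_le_sum_of_subset_of_nonneg ?_ (fun _ _ _ => by positivity)).trans
      (hmass.trans ((min_le_right _ _).trans (min_le_right _ _)))
    intro p hp
    rw [mem_filter] at hp ⊢
    exact ⟨PW_mono hd1' (by linarith) le_rfl hp.1, hp.2⟩)
  have hmcases : M.card = 1 ∨ M.card = 2 := by omega
  rcases hmcases with hm | hm
  · -- index two
    have hH2 : H.index = 2 := by omega
    obtain ⟨hψ1, hψc, h1M⟩ := end_two H M c hH2 hm hc hcov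
    have hwin : ∀ a b : ℝ, α ≤ a → b ≤ 1 + 2 * ε0 →
        ∑ p ∈ PW d a b, 1 / (p : ℝ) * (1 + rv (psi2 H hH2) (ucl d p)) ≤ κe := by
      intro a b ha hb
      have h1 : ∑ p ∈ PW d a b, 1 / (p : ℝ) * (1 + rv (psi2 H hH2) (ucl d p)) ≤
          ∑ p ∈ PW d a b, (if ((ucl d p : (ZMod d)ˣ) : (ZMod d)ˣ ⧸ H) ∉ M then 2 * (1 / (p : ℝ)) else 0) := by
        refine sum_le_sum fun p _ => ?_
        by_cases hp : ucl d p ∈ H
        · have h2 : ((ucl d p : (ZMod d)ˣ) : (ZMod d)ˣ ⧸ H) = 1 := (QuotientGroup.eq_one_iff _).2 hp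
          rw [if_pos (by rw [h2]; exact h1M)]
          unfold rv
          rw [psi2_of_mem H hH2 hp]
          push_cast
          linarith
        · have h3 : 1 + rv (psi2 H hH2) (ucl d p) = 0 := by
            unfold rv
            rw [psi2_of_notMem H hH2 hp]
            push_cast
            norm_num
          rw [h3, mul_zero]
          split_ifs <;> positivity
      refine h1.trans ?_
      rw [← sum_filter, ← mul_sum]
      have h4 : ∑ p ∈ (PW d a b).filter (fun p : ℕ => ((ucl d p : (ZMod d)ˣ) : (ZMod d)ˣ ⧸ H) ∉ M), 1 / (p : ℝ) ≤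
          κe / 2 := by
        refine (sum_le_sum_of_subset_of_nonneg ?_ (fun _ _ _ => by positivity)).trans hme
        intro p hp
        rw [mem_filter] at hp ⊢
        exact ⟨PW_mono hd1' ha hb hp.1, hp.2⟩
      linarith
    obtain ⟨q, m1, m2, hq, hm1, hm2, hq1, hm11, hm21, hq2, hm12, hm22, hprod⟩ :=
      hd1 d hdd1 (psi2 H hH2) hψ1 (hwin α (1 / 2 + ε0) le_rfl (by linarith))
        (hwin (1 + ε0) (1 + 2 * ε0) (by linarith) le_rfl) c hψc
    refine ⟨q, m1, m2, hq, hm1, hm2, hq1, hm11, hm21, hq2, hm12, hm22.trans ?_, hprod⟩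
    exact Real.rpow_le_rpow_of_exponent_le (by exact_mod_cast hd1') (by linarith)
  · -- index five
    exfalso
    have hH5 : H.index = 5 := by omega
    have hQ : Nat.card ((ZMod d)ˣ ⧸ H) = 5 := by rw [← Subgroup.index_eq_card, hH5]
    obtain ⟨a, ha1, haM⟩ := five_set M hQ hm hcov
    obtain ⟨φ, hφ5, hφa, hφa', hφ1⟩ := char_five hQ a ha1
    obtain ⟨g, hg⟩ := QuotientGroup.mk_surjective a
    have hne : lft H φ ≠ 1 := by
      intro h
      have h1 : ev (lft H φ) g = ev 1 g := by rw [h]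
      rw [ev_lft, hg] at h1
      apply hφ1
      ext
      rw [h1]
      unfold ev
      rw [MulChar.one_apply_coe, Units.val_one]
    have hpow : (lft H φ) ^ 5 = 1 := by
      apply ev_inj
      intro x
      have h1 : ev ((lft H φ) ^ 5) x = (ev (lft H φ) x) ^ 5 := by
        unfold ev
        rw [MulChar.pow_apply_coe]
      rw [h1, ev_lft, ← Units.val_pow_eq_pow_val, hφ5]
      unfold ev
      rw [MulChar.one_apply_coe, Units.val_one]
    have h2 := hd2 d hdd2 (lft H φ) hne hpow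
    have h3 : ∑ p ∈ (PW d α 1).filter (fun p : ℕ => ((lft H φ) (p : ZMod d)).re < 3 / 10), 1 / (p : ℝ) ≤ σ / 2 := by
      refine (sum_le_sum_of_subset_of_nonneg ?_ (fun _ _ _ => by positivity)).trans hmσ
      intro p hp
      rw [mem_filter] at hp ⊢
      refine ⟨PW_mono hd1' le_rfl (by linarith) hp.1, fun hpM => ?_⟩
      have hpd : p.Coprime d := PW_coprime hp.1
      have h4 : (lft H φ) (p : ZMod d) = ((φ ((ucl d p : (ZMod d)ˣ) : (ZMod d)ˣ ⧸ H) : ℂˣ) : ℂ) := by
        rw [← ev_lft]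
        unfold ev
        rw [ucl_val hpd]
      rw [h4] at hp
      rcases haM _ hpM with h5 | h5
      · rw [h5] at hp
        linarith [hp.2]
      · rw [h5] at hp
        linarith [hp.2]
    linarith

end Pool.Agent.Lib.MP_42948a_nt.EG
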